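import Pool.Agent.Helper47.RevChain

namespace Pool.Agent.Results.MP_608a10_al.ThreeReversibles

/-- Complete (positive) answer to Q2: every order-preserving `C^∞` diffeomorphism of the real line
is a product of three elements which are reversible in `Diffeo⁺(ℝ)`. -/
theorem result (f : DiffeoPlus) :
    ∃ g₁ g₂ g₃ : DiffeoPlus,
      (∃ h : DiffeoPlus, h * g₁ * h⁻¹ = g₁⁻¹) ∧ (∃ h : DiffeoPlus, h * g₂ * h⁻¹ = g₂⁻¹) ∧
      (∃ h : DiffeoPlus, h * g₃ * h⁻¹ = g₃⁻¹) ∧ f = g₁ * g₂ * g₃ :=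
  RevLine.three f

end Pool.Agent.Results.MP_608a10_al.ThreeReversibles
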