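import Pool.Agent.Helper47.RevChain

open Filter

namespace Pool.Agent.Results.MP_608a10_al.UnboundedSupport

/-- Q1 for all diffeomorphisms of unbounded support: if the set of points moved by
`f ∈ Diffeo⁺(ℝ)` is unbounded, then `f` is a product of two reversible elements. -/
theorem result (f : DiffeoPlus)
    (hf : ¬ Bornology.IsBounded {x : ℝ | (f : Equiv.Perm ℝ) x ≠ x}) :
    ∃ g₁ g₂ : DiffeoPlus,
      (∃ h : DiffeoPlus, h * g₁ * h⁻¹ = g₁⁻¹) ∧ (∃ h : DiffeoPlus, h * g₂ * h⁻¹ = g₂⁻¹) ∧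
      f = g₁ * g₂ := by
  apply RevLine.two_of_unbounded f
  by_contra hcon
  push Not at hcon
  obtain ⟨h1, h2⟩ := hcon
  obtain ⟨M, hM⟩ := eventually_atTop.1 h1
  obtain ⟨N, hN⟩ := eventually_atBot.1 h2
  refine hf ((Metric.isBounded_Icc N M).subset ?_)
  intro x hx
  constructor
  · by_contra hc
    exact hx (hN x (not_le.1 hc).le)
  · by_contra hc
    exact hx (hM x (not_le.1 hc).le)

end Pool.Agent.Results.MP_608a10_al.UnboundedSupport
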